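import Pool.Agent.Results.MP_5317dd_nt.PowerSaving
import Pool.Agent.H319R3.GC.W1
import Pool.Agent.H319R3.GC.W2

/-! Wiggin's maps: the accelerated map, itineraries and growth. -/

set_option autoImplicit false

namespace Pool.Agent.X16.WG

open Pool.Agent.Results.MP_5317dd_nt.PowerSaving (F mD rD adm)
open Pool.Agent.H319R3.GC (Adm Tm PP LW wd)

/-- the accelerated map -/
def T (D n : ℕ) : ℕ := if n % D = 0 then n / D else F D n / D

theorem F_mul {D : ℕ} (hD : 2 ≤ D) (t : ℕ) : F D (D * t) = t := by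
  unfold F
  rw [if_pos (Nat.mul_mod_right D t), Nat.mul_div_cancel_left _ (by omega)]

theorem F_cases {D : ℕ} (hD : 2 ≤ D) {n : ℕ} (h : n % D ≠ 0) :
    D ∣ F D n ∧ F D n ≤ (D + 1) * n + 1 ∧ n ≤ F D n ∧
      (F D n : ℤ) = ((D : ℤ) + 1) * n - rD D (n % D) := by
  obtain ⟨q, j, hj, rfl⟩ : ∃ q j, j < D ∧ n = D * q + j :=
    ⟨n / D, n % D, Nat.mod_lt _ (by omega), (Nat.div_add_mod n D).symm⟩
  have hmj : (D * q + j) % D = j := by rw [Nat.mul_add_mod, Nat.mod_eq_of_lt hj]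
  rw [hmj] at h ⊢
  by_cases h1 : j = D - 1
  · have hF : F D (D * q + j) = (D + 1) * (D * q + j) + 1 := by
      unfold F
      rw [hmj, if_neg h, if_pos h1]
    have hF2 : F D (D * q + j) = D * (D * (q + 1) + q) := by
      rw [hF, h1]
      obtain ⟨d, rfl⟩ : ∃ d, D = d + 1 := ⟨D - 1, by omega⟩
      simp only [Nat.add_sub_cancel]
      ring
    refine ⟨⟨_, hF2⟩, hF.le, ?_, ?_⟩
    · rw [hF]; nlinarith [Nat.zero_le (D * (D * q + j))]
    · rw [hF]
      simp only [rD]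
      rw [if_neg h, if_pos h1]
      push_cast
      ring
  · have e : (D + 1) * (D * q + j) = D * (D * q + j + q) + j := by ring
    have hF : F D (D * q + j) = D * (D * q + j + q) := by
      unfold F
      rw [hmj, if_neg h, if_neg h1]
      omega
    refine ⟨⟨_, hF⟩, ?_, ?_, ?_⟩
    · rw [hF]; omega
    · rw [hF]; nlinarith [Nat.zero_le (D * (D * q + j + q))]
    · rw [hF]
      simp only [rD]
      rw [if_neg h, if_neg h1]
      push_cast
      ring

theorem T_F {D : ℕ} (hD : 2 ≤ D) {n : ℕ} (h : n % D ≠ 0) : F D (F D n) = T D n := by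
  obtain ⟨q, hq⟩ := (F_cases hD h).1
  unfold T
  rw [if_neg h, hq, F_mul hD, Nat.mul_div_cancel_left _ (by omega)]

theorem T_F0 {D : ℕ} {n : ℕ} (h : n % D = 0) : F D n = T D n := by
  unfold T F
  rw [if_pos h, if_pos h]

theorem D_T {D : ℕ} (hD : 2 ≤ D) {n : ℕ} (h : n % D ≠ 0) : D * T D n = F D n := by
  unfold T
  rw [if_neg h, Nat.mul_div_cancel' (F_cases hD h).1]

theorem D_T0 {D : ℕ} {n : ℕ} (h : n % D = 0) : D * T D n = n := by
  unfold T
  rw [if_pos h, Nat.mul_div_cancel' (Nat.dvd_of_mod_eq_zero h)]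

theorem T_le {D : ℕ} (hD : 2 ≤ D) (n : ℕ) : D * (T D n + 1) ≤ (D + 1) * (n + 1) := by
  by_cases h : n % D = 0
  · have := D_T0 h
    nlinarith [Nat.zero_le (D * n)]
  · have h1 := D_T hD h
    have h2 := (F_cases hD h).2.1
    nlinarith

theorem T_iter_le {D : ℕ} (hD : 2 ≤ D) (k n : ℕ) :
    D ^ k * ((T D)^[k] n + 1) ≤ (D + 1) ^ k * (n + 1) := by
  induction k generalizing n with
  | zero => simp
  | succ k ih =>
    rw [Function.iterate_succ_apply]
    have h1 := ih (T D n)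
    have h2 := T_le hD n
    calc D ^ (k + 1) * ((T D)^[k] (T D n) + 1) = D * (D ^ k * ((T D)^[k] (T D n) + 1)) := by ring
      _ ≤ D * ((D + 1) ^ k * (T D n + 1)) := Nat.mul_le_mul_left _ h1
      _ = (D + 1) ^ k * (D * (T D n + 1)) := by ring
      _ ≤ (D + 1) ^ k * ((D + 1) * (n + 1)) := Nat.mul_le_mul_left _ h2
      _ = _ := by ring

/-- the itinerary -/
def wn (D : ℕ) : ℕ → ℕ → List ℕ
  | 0, _ => []
  | k + 1, x => (x % D) :: wn D k (T D x)

/-- the number of nonzero letters -/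
def cz : List ℕ → ℕ
  | [] => 0
  | i :: w => (if i = 0 then 0 else 1) + cz w

theorem T_cast {D : ℕ} (hD : 2 ≤ D) (n : ℕ) : Tm D (mD D) (rD D) (n : ℤ) = (T D n : ℤ) := by
  have hD0 : (D : ℤ) ≠ 0 := by exact_mod_cast (by omega : D ≠ 0)
  have hmod : ((n : ℤ) % (D : ℤ)).toNat = n % D := by
    rw [← Int.natCast_mod, Int.toNat_natCast]
  have h1 := Pool.Agent.H828R3.GP.Tm_eq (adm D hD) (n : ℤ)
  rw [hmod] at h1
  apply mul_left_cancel₀ hD0
  rw [h1]
  by_cases h : n % D = 0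
  · have h2 := D_T0 h
    rw [h]
    simp only [mD, rD, if_true]
    have : ((D * T D n : ℕ) : ℤ) = n := by rw [h2]
    push_cast at this
    rw [this]
    ring
  · have h2 := D_T hD h
    have h3 := (F_cases hD h).2.2.2
    have : ((D * T D n : ℕ) : ℤ) = (F D n : ℤ) := by rw [h2]
    push_cast at this
    rw [this, h3]
    simp only [mD]
    rw [if_neg h]

theorem wd_eq {D : ℕ} (hD : 2 ≤ D) (k n : ℕ) : wd D (mD D) (rD D) k (n : ℤ) = wn D k n := by
  induction k generalizing n with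
  | zero => rfl
  | succ k ih =>
    simp only [wd, wn]
    rw [T_cast hD, ih, ← Int.natCast_mod, Int.toNat_natCast]

theorem wn_mem {D : ℕ} (hD : 2 ≤ D) (k n : ℕ) : wn D k n ∈ LW D k := by
  rw [← wd_eq hD]
  exact Pool.Agent.H319R3.GC.wd_mem hD k _

theorem wn_cong {D : ℕ} (hD : 2 ≤ D) {k x y : ℕ} (h : wn D k x = wn D k y) :
    x % D ^ k = y % D ^ k := by
  rw [← wd_eq hD, ← wd_eq hD] at h
  have h1 := Pool.Agent.H319R3.GC.wd_cong (adm D hD) h
  have h2 : (x : ℤ) ≡ y [ZMOD ((D ^ k : ℕ) : ℤ)] := by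
    push_cast
    exact (Int.modEq_iff_dvd.2 (by
      have := dvd_neg.2 h1
      rwa [neg_sub] at this))
  exact (Int.natCast_modEq_iff).1 h2

theorem growth {D : ℕ} (hD : 2 ≤ D) {N : ℕ} (hN : 1 ≤ N) (b x : ℕ)
    (h : ∀ j ≤ b, N ≤ (T D)^[j] x) :
    ((T D)^[b] x : ℝ) * (D : ℝ) ^ b ≤ ((D : ℝ) + 1) ^ cz (wn D b x) * x * (1 + 1 / (N : ℝ)) ^ b := by
  have hNR : (0 : ℝ) < N := by exact_mod_cast hN
  have hDR : (0 : ℝ) < D := by exact_mod_cast (by omega : 0 < D)
  induction b generalizing x with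
  | zero => simp [wn, cz]
  | succ b ih =>
    have h1 := ih (T D x) fun j hj => by
      have := h (j + 1) (by omega)
      rwa [Function.iterate_succ_apply] at this
    have hx : (N : ℝ) ≤ x := by exact_mod_cast h 0 (by omega)
    have hb0 : (0 : ℝ) ≤ 1 + 1 / (N : ℝ) := by positivity
    have h2 : (T D x : ℝ) * D ≤
        ((D : ℝ) + 1) ^ (if x % D = 0 then 0 else 1) * x * (1 + 1 / (N : ℝ)) := by
      by_cases h0 : x % D = 0
      · rw [if_pos h0, pow_zero, one_mul]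
        have e : ((D * T D x : ℕ) : ℝ) = x := by rw [D_T0 h0]
        push_cast at e
        rw [mul_comm, e]
        have : (0 : ℝ) ≤ x * (1 / N) := by positivity
        nlinarith
      · rw [if_neg h0, pow_one]
        have e : ((D * T D x : ℕ) : ℝ) = (F D x : ℝ) := by rw [D_T hD h0]
        push_cast at e
        have e2 : (F D x : ℝ) ≤ ((D : ℝ) + 1) * x + 1 := by exact_mod_cast (F_cases hD h0).2.1
        have e3 : (1 : ℝ) ≤ x * (1 / N) := by
          rw [mul_one_div, le_div_iff₀ hNR]; linarith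
        rw [mul_comm, e]
        have e4 : ((D : ℝ) + 1) * 1 ≤ (D + 1) * (x * (1 / N)) :=
          mul_le_mul_of_nonneg_left e3 (by positivity)
        nlinarith
    rw [Function.iterate_succ_apply]
    simp only [wn, cz]
    calc ((T D)^[b] (T D x) : ℝ) * (D : ℝ) ^ (b + 1)
        = ((T D)^[b] (T D x) : ℝ) * (D : ℝ) ^ b * D := by ring
      _ ≤ (((D : ℝ) + 1) ^ cz (wn D b (T D x)) * (T D x) * (1 + 1 / (N : ℝ)) ^ b) * D :=
          mul_le_mul_of_nonneg_right h1 hDR.le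
      _ = ((D : ℝ) + 1) ^ cz (wn D b (T D x)) * (1 + 1 / (N : ℝ)) ^ b * ((T D x) * D) := by ring
      _ ≤ ((D : ℝ) + 1) ^ cz (wn D b (T D x)) * (1 + 1 / (N : ℝ)) ^ b *
          (((D : ℝ) + 1) ^ (if x % D = 0 then 0 else 1) * x * (1 + 1 / (N : ℝ))) :=
          mul_le_mul_of_nonneg_left h2 (by positivity)
      _ = _ := by rw [pow_add, pow_succ]; ring

theorem big_cz {D : ℕ} (hD : 2 ≤ D) {n b : ℕ} (hn : 1 ≤ n) (hb : b ≤ n)
    (h : ∀ j ≤ b, n ≤ (T D)^[j] n) : (D : ℝ) ^ b ≤ 3 * ((D : ℝ) + 1) ^ cz (wn D b n) := by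
  have hnR : (0 : ℝ) < n := by exact_mod_cast hn
  have h1 := growth hD hn b n h
  have h2 : (n : ℝ) ≤ ((T D)^[b] n : ℝ) := by exact_mod_cast h b le_rfl
  have h3 : (1 + 1 / (n : ℝ)) ^ b ≤ 3 := by
    calc (1 + 1 / (n : ℝ)) ^ b ≤ (Real.exp (1 / n)) ^ b := by
          apply pow_le_pow_left₀ (by positivity)
          have := Real.add_one_le_exp (1 / (n : ℝ)); linarith
      _ = Real.exp (b * (1 / n)) := by rw [← Real.exp_nat_mul]
      _ ≤ Real.exp 1 := by
          apply Real.exp_le_exp.2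
          rw [mul_one_div, div_le_one hnR]
          exact_mod_cast hb
      _ ≤ 3 := by have := Real.exp_one_lt_d9; linarith
  have h4 : (n : ℝ) * (D : ℝ) ^ b ≤ ((D : ℝ) + 1) ^ cz (wn D b n) * n * 3 :=
    (mul_le_mul_of_nonneg_right h2 (by positivity)).trans
      (h1.trans (mul_le_mul_of_nonneg_left h3 (by positivity)))
  have h5 : (n : ℝ) * (D : ℝ) ^ b ≤ n * (3 * ((D : ℝ) + 1) ^ cz (wn D b n)) := by
    rw [show (n : ℝ) * (3 * ((D : ℝ) + 1) ^ cz (wn D b n)) =
      ((D : ℝ) + 1) ^ cz (wn D b n) * n * 3 by ring]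
    exact h4
  exact le_of_mul_le_mul_left h5 hnR

theorem sum_cz (D : ℕ) (hD : 1 ≤ D) (z : ℝ) (b : ℕ) :
    ∑ w ∈ LW D b, z ^ cz w = (1 + ((D : ℝ) - 1) * z) ^ b := by
  induction b with
  | zero => simp [LW, cz]
  | succ b ih =>
    rw [Pool.Agent.H319R3.GC.sum_LW_succ]
    have h1 : ∀ i ∈ Finset.range D, ∑ w ∈ LW D b, z ^ cz (i :: w) =
        (if i = 0 then 1 else z) * (1 + ((D : ℝ) - 1) * z) ^ b := by
      intro i _
      rw [← ih, Finset.mul_sum]
      refine Finset.sum_congr rfl fun w _ => ?_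
      simp only [cz]
      split_ifs with h0
      · simp
      · rw [pow_add, pow_one]
    rw [Finset.sum_congr rfl h1, ← Finset.sum_mul, pow_succ, mul_comm]
    congr 1
    obtain ⟨e, rfl⟩ : ∃ e, D = e + 1 := ⟨D - 1, by omega⟩
    rw [Finset.sum_range_succ']
    simp
    ring

theorem count {D : ℕ} (hD : 2 ≤ D) {b L : ℕ} {s : ℝ} (hs : 0 ≤ s) (A : Finset ℕ)
    (hA : ∀ n ∈ A, n < D ^ b * L ∧ (D : ℝ) ^ b ≤ 3 * ((D : ℝ) + 1) ^ cz (wn D b n)) :
    (A.card : ℝ) ≤ L * (3 ^ s * ((1 + ((D : ℝ) - 1) * ((D : ℝ) + 1) ^ s) / (D : ℝ) ^ s) ^ b) := by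
  classical
  have hDR : (0 : ℝ) < D := by exact_mod_cast (by omega : 0 < D)
  have hDb : 0 < D ^ b := Nat.pow_pos (by omega)
  have h1 : A.card ≤ L * (A.image (wn D b)).card := by
    apply Finset.card_le_mul_card_image
    intro w _
    have : ((A.filter fun n => wn D b n = w).image (· / D ^ b)).card =
        (A.filter fun n => wn D b n = w).card := by
      apply Finset.card_image_of_injOn
      intro x hx y hy hxy
      have hx1 := (Finset.mem_filter.1 hx).2
      have hy1 := (Finset.mem_filter.1 hy).2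
      have h3 := wn_cong hD (hx1.trans hy1.symm)
      have h4 : x / D ^ b = y / D ^ b := hxy
      rw [← Nat.div_add_mod x (D ^ b), ← Nat.div_add_mod y (D ^ b), h3, h4]
    rw [← this]
    calc ((A.filter fun n => wn D b n = w).image (· / D ^ b)).card ≤ (Finset.range L).card := by
          apply Finset.card_le_card
          intro q hq
          obtain ⟨x, hx, rfl⟩ := Finset.mem_image.1 hq
          rw [Finset.mem_range]
          exact Nat.div_lt_of_lt_mul (hA x (Finset.mem_filter.1 hx).1).1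
      _ = L := Finset.card_range L
  have h2 : ((A.image (wn D b)).card : ℝ) ≤
      ∑ w ∈ LW D b, (3 * ((D : ℝ) + 1) ^ cz w / (D : ℝ) ^ b) ^ s := by
    calc ((A.image (wn D b)).card : ℝ) = ∑ w ∈ A.image (wn D b), (1 : ℝ) := by simp
      _ ≤ ∑ w ∈ A.image (wn D b), (3 * ((D : ℝ) + 1) ^ cz w / (D : ℝ) ^ b) ^ s := by
          apply Finset.sum_le_sum
          intro w hw
          obtain ⟨n, hn, rfl⟩ := Finset.mem_image.1 hw
          apply Real.one_le_rpow _ hs
          rw [one_le_div (by positivity)]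
          exact (hA n hn).2
      _ ≤ _ := by
          apply Finset.sum_le_sum_of_subset_of_nonneg
          · intro w hw
            obtain ⟨n, hn, rfl⟩ := Finset.mem_image.1 hw
            exact wn_mem hD b n
          · intro w _ _
            positivity
  have h3 : ∑ w ∈ LW D b, (3 * ((D : ℝ) + 1) ^ cz w / (D : ℝ) ^ b) ^ s =
      3 ^ s * ((1 + ((D : ℝ) - 1) * ((D : ℝ) + 1) ^ s) / (D : ℝ) ^ s) ^ b := by
    have e : ∀ w ∈ LW D b, (3 * ((D : ℝ) + 1) ^ cz w / (D : ℝ) ^ b) ^ s =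
        3 ^ s / ((D : ℝ) ^ s) ^ b * (((D : ℝ) + 1) ^ s) ^ cz w := by
      intro w _
      rw [Real.div_rpow (by positivity) (by positivity), Real.mul_rpow (by norm_num) (by positivity),
        ← Real.rpow_natCast, ← Real.rpow_natCast, ← Real.rpow_mul (by positivity),
        ← Real.rpow_mul (by positivity), mul_comm ((cz w : ℕ) : ℝ) s, mul_comm ((b : ℕ) : ℝ) s,
        Real.rpow_mul (by positivity), Real.rpow_mul (by positivity), Real.rpow_natCast,
        Real.rpow_natCast]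
      ring
    rw [Finset.sum_congr rfl e, ← Finset.mul_sum, sum_cz D (by omega), div_pow]
    ring
  have hL0 : (0 : ℝ) ≤ L := Nat.cast_nonneg _
  calc (A.card : ℝ) ≤ L * ((A.image (wn D b)).card : ℝ) := by exact_mod_cast h1
    _ ≤ L * ∑ w ∈ LW D b, (3 * ((D : ℝ) + 1) ^ cz w / (D : ℝ) ^ b) ^ s :=
        mul_le_mul_of_nonneg_left h2 hL0
    _ = _ := by rw [h3]

end Pool.Agent.X16.WG
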