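import Pool.Agent.X16.WG.A

/-! Wiggin's maps: record holders of the maximum excursion. -/

set_option autoImplicit false

namespace Pool.Agent.X16.WG

open Pool.Agent.Results.MP_5317dd_nt.PowerSaving (F mD rD adm)
open Pool.Agent.H319R3.GC (Adm Tm PP LW wd)

/-- `n` is a record holder: some iterate of `n` exceeds all iterates of all smaller positive integers. -/
def Rec (D n : ℕ) : Prop :=
  1 ≤ n ∧ ∃ k : ℕ, ∀ m j : ℕ, 1 ≤ m → m < n → (F D)^[j] m < (F D)^[k] n

theorem F_pos {D : ℕ} (hD : 2 ≤ D) {n : ℕ} (hn : 1 ≤ n) : 1 ≤ F D n := by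
  by_cases h : n % D = 0
  · rw [T_F0 h]
    have := D_T0 h
    rcases Nat.eq_zero_or_pos (T D n) with h0 | h0
    · rw [h0] at this; omega
    · exact h0
  · have := (F_cases hD h).2.2.1
    omega

theorem iter_pos {D : ℕ} (hD : 2 ≤ D) {n : ℕ} (hn : 1 ≤ n) (k : ℕ) : 1 ≤ (F D)^[k] n := by
  induction k with
  | zero => exact hn
  | succ k ih => rw [Function.iterate_succ_apply']; exact F_pos hD ih

theorem F_T {D : ℕ} (hD : 2 ≤ D) (n K : ℕ) : ∃ k : ℕ,
    (∀ j ≤ k, ∃ i ≤ K, (F D)^[i] n = (T D)^[j] n) ∧ ((F D)^[K] n = (T D)^[k] n ∨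
      ((T D)^[k] n % D ≠ 0 ∧ (F D)^[K] n = F D ((T D)^[k] n))) := by
  induction K with
  | zero => exact ⟨0, fun j hj => ⟨0, le_rfl, by rw [Nat.le_zero.1 hj]; rfl⟩, Or.inl rfl⟩
  | succ K ih =>
    obtain ⟨k, h1, h2⟩ := ih
    have h1' : ∀ j ≤ k, ∃ i ≤ K + 1, (F D)^[i] n = (T D)^[j] n := fun j hj => by
      obtain ⟨i, hi, h⟩ := h1 j hj
      exact ⟨i, by omega, h⟩
    rcases h2 with h2 | ⟨h3, h2⟩
    · by_cases h0 : (T D)^[k] n % D = 0
      · have e : (F D)^[K + 1] n = (T D)^[k + 1] n := by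
          rw [Function.iterate_succ_apply', Function.iterate_succ_apply', h2, T_F0 h0]
        refine ⟨k + 1, fun j hj => ?_, Or.inl e⟩
        rcases Nat.lt_or_ge j (k + 1) with h | h
        · exact h1' j (by omega)
        · exact ⟨K + 1, le_rfl, by rw [show j = k + 1 by omega]; exact e⟩
      · exact ⟨k, h1', Or.inr ⟨h0, by rw [Function.iterate_succ_apply', h2]⟩⟩
    · have e : (F D)^[K + 1] n = (T D)^[k + 1] n := by
        rw [Function.iterate_succ_apply', Function.iterate_succ_apply', h2, T_F hD h3]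
      refine ⟨k + 1, fun j hj => ?_, Or.inl e⟩
      rcases Nat.lt_or_ge j (k + 1) with h | h
      · exact h1' j (by omega)
      · exact ⟨K + 1, le_rfl, by rw [show j = k + 1 by omega]; exact e⟩

theorem climb {D : ℕ} (hD : 2 ≤ D) (i v : ℕ) (hv : 1 ≤ v) :
    (F D)^[2 * i] (D ^ i * v - 1) = (D + 1) ^ i * v - 1 := by
  induction i generalizing v with
  | zero => simp
  | succ i ih =>
    have hu : 1 ≤ D ^ i * v := Nat.mul_pos (Nat.pow_pos (by omega)) hv
    obtain ⟨u, hu2⟩ : ∃ u, D ^ i * v = u + 1 := ⟨D ^ i * v - 1, by omega⟩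
    have e1 : D ^ (i + 1) * v = D * (D ^ i * v) := by ring
    have hm : (D * (D ^ i * v) - 1) % D = D - 1 := by
      rw [hu2]
      have : D * (u + 1) - 1 = D * u + (D - 1) := by
        rw [Nat.mul_succ]; omega
      rw [this, Nat.mul_add_mod, Nat.mod_eq_of_lt (by omega)]
    have e2 : F D (D * (D ^ i * v) - 1) = D * ((D + 1) * (D ^ i * v) - 1) := by
      unfold F
      rw [hm, if_neg (by omega), if_pos rfl]
      obtain ⟨d, rfl⟩ : ∃ d, D = d + 1 := ⟨D - 1, by omega⟩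
      rw [hu2]
      have a1 : (d + 1) * (u + 1) - 1 = (d + 1) * u + d := by rw [Nat.mul_succ]; omega
      have a2 : (d + 1 + 1) * (u + 1) - 1 = (d + 1 + 1) * u + (d + 1) := by
        rw [Nat.mul_succ]; omega
      rw [a1, a2]
      ring
    have e3 : 2 * (i + 1) = 2 * i + 2 := by ring
    rw [e1, e3, Function.iterate_add_apply]
    have e4 : (F D)^[2] (D * (D ^ i * v) - 1) = (D + 1) * (D ^ i * v) - 1 := by
      rw [Function.iterate_succ_apply, Function.iterate_one, e2, F_mul hD]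
    rw [e4, show (D + 1) * (D ^ i * v) = D ^ i * ((D + 1) * v) by ring,
      ih ((D + 1) * v) (Nat.mul_pos (by omega) hv)]
    congr 1
    ring

theorem exists_c {D : ℕ} (hD : 2 ≤ D) : ∃ c : ℕ, 1 ≤ c ∧ ∀ e, c ≤ e → D ^ (e + 2) < (D + 1) ^ e := by
  have hDR : (0 : ℝ) < D := by exact_mod_cast (by omega : 0 < D)
  have h1 : (1 : ℝ) < ((D : ℝ) + 1) / D := by rw [one_lt_div hDR]; linarith
  obtain ⟨c, hc⟩ := pow_unbounded_of_one_lt ((D : ℝ) ^ 2) h1
  refine ⟨c + 1, by omega, fun e he => ?_⟩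
  have h2 : (D : ℝ) ^ 2 < (((D : ℝ) + 1) / D) ^ e :=
    hc.trans_le (pow_le_pow_right₀ h1.le (by omega))
  rw [div_pow, lt_div_iff₀ (by positivity)] at h2
  have h3 : (D : ℝ) ^ (e + 2) < ((D : ℝ) + 1) ^ e := by
    rw [pow_add, mul_comm]; exact h2
  exact_mod_cast h3

/-- the trajectories of record holders do not drop for a long time -/
theorem rec_long {D : ℕ} (hD : 2 ≤ D) {c : ℕ} (hc1 : 1 ≤ c)
    (hc : ∀ e, c ≤ e → D ^ (e + 2) < (D + 1) ^ e) {a n : ℕ} (ha : c ≤ a) (h1 : D ^ a ≤ n)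
    (h2 : n < D ^ (a + 1)) (hn : Rec D n) : ∀ j ≤ a - c, n ≤ (T D)^[j] n := by
  obtain ⟨hn1, K, hK⟩ := hn
  have hDa : 2 ≤ D ^ a := by
    calc 2 ≤ D ^ 1 := by rw [pow_one]; exact hD
      _ ≤ D ^ a := Nat.pow_le_pow_right (by omega) (by omega)
  have hbig : (D + 1) ^ a ≤ (F D)^[K] n := by
    have h3 := hK (D ^ a * 1 - 1) (2 * a) (by omega) (by omega)
    rw [climb hD a 1 le_rfl] at h3
    omega
  have hstay : ∀ i ≤ K, n ≤ (F D)^[i] n := by
    intro i hi
    by_contra hlt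
    have h3 := hK ((F D)^[i] n) (K - i) (iter_pos hD hn1 i) (by omega)
    rw [← Function.iterate_add_apply, Nat.sub_add_cancel hi] at h3
    exact lt_irrefl _ h3
  obtain ⟨k, hk1, hk2⟩ := F_T hD n K
  have hT : (F D)^[K] n ≤ (D + 1) * (T D)^[k] n + 1 := by
    rcases hk2 with h | ⟨h0, h⟩
    · rw [h]; nlinarith [Nat.zero_le (D * (T D)^[k] n)]
    · rw [h]; exact (F_cases hD h0).2.1
  have hka : a < k + c + 1 := by
    by_contra hcon
    obtain ⟨e, he⟩ : ∃ e, a = k + 1 + e := ⟨a - (k + 1), by omega⟩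
    have hce : c ≤ e := by omega
    have g1 := T_iter_le hD k n
    have g2 : (D + 1) ^ a ≤ (D + 1) * ((T D)^[k] n + 1) := by
      have := hbig.trans hT
      nlinarith
    have g3 : (D + 1) ^ (k + e) ≤ (T D)^[k] n + 1 := by
      have e1 : (D + 1) ^ a = (D + 1) * (D + 1) ^ (k + e) := by rw [he]; ring
      rw [e1] at g2
      exact Nat.le_of_mul_le_mul_left g2 (by omega)
    have g4 : D ^ k * (D + 1) ^ (k + e) ≤ (D + 1) ^ k * D ^ (a + 1) :=
      (Nat.mul_le_mul_left _ g3).trans (g1.trans (Nat.mul_le_mul_left _ (by omega)))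
    have g5 : (D ^ k * (D + 1) ^ k) * (D + 1) ^ e ≤ (D ^ k * (D + 1) ^ k) * D ^ (e + 2) := by
      calc (D ^ k * (D + 1) ^ k) * (D + 1) ^ e = D ^ k * (D + 1) ^ (k + e) := by ring
        _ ≤ (D + 1) ^ k * D ^ (a + 1) := g4
        _ = _ := by rw [he]; ring
    have g6 := Nat.le_of_mul_le_mul_left g5
      (Nat.mul_pos (Nat.pow_pos (by omega)) (Nat.pow_pos (by omega)))
    exact absurd (hc e hce) (by omega)
  intro j hj
  obtain ⟨i, hi, h3⟩ := hk1 j (by omega)
  rw [← h3]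
  exact hstay i hi

/-- record holders in a `D`-adic block -/
theorem block {D : ℕ} (hD : 2 ≤ D) {s η : ℝ} (hs : 0 ≤ s) (hη : 0 ≤ η)
    (h : 1 + ((D : ℝ) - 1) * ((D : ℝ) + 1) ^ s ≤ (D : ℝ) ^ (s + η)) :
    ∃ K : ℝ, 0 < K ∧ ∀ (a : ℕ) (A : Finset ℕ),
      (∀ n ∈ A, D ^ a ≤ n ∧ n < D ^ (a + 1) ∧ Rec D n) → (A.card : ℝ) ≤ K * ((D : ℝ) ^ η) ^ a := by
  have hDR : (1 : ℝ) < D := by exact_mod_cast (by omega : 1 < D)
  have hD0 : (0 : ℝ) < D := by linarith
  obtain ⟨c, hc1, hc⟩ := exists_c hD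
  have hη1 : 1 ≤ (D : ℝ) ^ η := Real.one_le_rpow hDR.le hη
  have h3s : (1 : ℝ) ≤ 3 ^ s := Real.one_le_rpow (by norm_num) hs
  refine ⟨(D : ℝ) ^ (c + 1) * 3 ^ s, by positivity, fun a A hA => ?_⟩
  rcases Nat.lt_or_ge a c with ha | ha
  · have h1 : A.card ≤ D ^ (a + 1) := by
      calc A.card ≤ (Finset.range (D ^ (a + 1))).card :=
            Finset.card_le_card fun n hn => Finset.mem_range.2 (hA n hn).2.1
        _ = _ := Finset.card_range _
    have h2 : D ^ (a + 1) ≤ D ^ (c + 1) := Nat.pow_le_pow_right (by omega) (by omega)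
    have h3 : (A.card : ℝ) ≤ (D : ℝ) ^ (c + 1) := by exact_mod_cast h1.trans h2
    calc (A.card : ℝ) ≤ (D : ℝ) ^ (c + 1) * 1 * 1 := by rw [mul_one, mul_one]; exact h3
      _ ≤ (D : ℝ) ^ (c + 1) * 3 ^ s * ((D : ℝ) ^ η) ^ a := by
          gcongr
          exact one_le_pow₀ hη1
  · obtain ⟨b, rfl⟩ : ∃ b, a = b + c := ⟨a - c, by omega⟩
    have hb : ∀ n ∈ A, n < D ^ b * D ^ (c + 1) ∧
        (D : ℝ) ^ b ≤ 3 * ((D : ℝ) + 1) ^ cz (wn D b n) := by
      intro n hn
      obtain ⟨h1, h2, h3⟩ := hA n hn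
      refine ⟨by rw [← pow_add, ← add_assoc]; exact h2, ?_⟩
      have h4 := rec_long hD hc1 hc (by omega) h1 h2 h3
      rw [Nat.add_sub_cancel] at h4
      have hbn : b ≤ n := by
        calc b ≤ D ^ b := (Nat.lt_pow_self (by omega)).le
          _ ≤ D ^ (b + c) := Nat.pow_le_pow_right (by omega) (by omega)
          _ ≤ n := h1
      exact big_cz hD h3.1 hbn h4
    have h1 := count hD (L := D ^ (c + 1)) hs A hb
    refine h1.trans ?_
    have h2 : (1 + ((D : ℝ) - 1) * ((D : ℝ) + 1) ^ s) / (D : ℝ) ^ s ≤ (D : ℝ) ^ η := by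
      rw [div_le_iff₀ (by positivity), ← Real.rpow_add hD0, add_comm η s]
      exact h
    have h0 : 0 ≤ (1 + ((D : ℝ) - 1) * ((D : ℝ) + 1) ^ s) / (D : ℝ) ^ s := by
      have : 0 ≤ ((D : ℝ) - 1) * ((D : ℝ) + 1) ^ s := mul_nonneg (by linarith) (by positivity)
      positivity
    push_cast
    calc (D : ℝ) ^ (c + 1) * (3 ^ s *
          ((1 + ((D : ℝ) - 1) * ((D : ℝ) + 1) ^ s) / (D : ℝ) ^ s) ^ b)
        ≤ (D : ℝ) ^ (c + 1) * (3 ^ s * ((D : ℝ) ^ η) ^ b) := by gcongr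
      _ ≤ (D : ℝ) ^ (c + 1) * (3 ^ s * ((D : ℝ) ^ η) ^ (b + c)) := by
          gcongr
          omega
      _ = _ := by ring

theorem total {D : ℕ} (hD : 2 ≤ D) {s η : ℝ} (hs : 0 ≤ s) (hη : 0 < η)
    (h : 1 + ((D : ℝ) - 1) * ((D : ℝ) + 1) ^ s ≤ (D : ℝ) ^ (s + η)) :
    ∃ K : ℝ, 0 < K ∧ ∀ x : ℝ, 1 ≤ x →
      (({n : ℕ | (n : ℝ) ≤ x ∧ Rec D n}.ncard : ℕ) : ℝ) ≤ K * x ^ η := by
  classical
  have hDR : (1 : ℝ) < D := by exact_mod_cast (by omega : 1 < D)
  have hD0 : (0 : ℝ) < D := by linarith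
  obtain ⟨K, hK, hb⟩ := block hD hs hη.le h
  have hη1 : 1 < (D : ℝ) ^ η := Real.one_lt_rpow hDR hη
  set q : ℝ := (D : ℝ) ^ η with hq
  have hq1 : 0 < q - 1 := by linarith
  have hS : ∀ a : ℕ, (((Finset.range (D ^ a)).filter fun n => Rec D n).card : ℝ) ≤
      K / (q - 1) * q ^ a := by
    intro a
    induction a with
    | zero =>
      have : ((Finset.range (D ^ 0)).filter fun n => Rec D n).card = 0 := by
        rw [Finset.card_eq_zero, Finset.filter_eq_empty_iff]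
        intro n hn hr
        have := hr.1
        rw [pow_zero, Finset.mem_range] at hn
        omega
      rw [this]
      simp only [Nat.cast_zero]
      positivity
    | succ a ih =>
      have h1 : ((Finset.range (D ^ (a + 1))).filter fun n => Rec D n) ⊆
          ((Finset.range (D ^ a)).filter fun n => Rec D n) ∪
          ((Finset.Ico (D ^ a) (D ^ (a + 1))).filter fun n => Rec D n) := by
        intro n hn
        rw [Finset.mem_filter, Finset.mem_range] at hn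
        rw [Finset.mem_union, Finset.mem_filter, Finset.mem_filter, Finset.mem_range,
          Finset.mem_Ico]
        rcases Nat.lt_or_ge n (D ^ a) with h2 | h2
        · exact Or.inl ⟨h2, hn.2⟩
        · exact Or.inr ⟨⟨h2, hn.1⟩, hn.2⟩
      have h2 := (Finset.card_le_card h1).trans (Finset.card_union_le _ _)
      have h3 := hb a ((Finset.Ico (D ^ a) (D ^ (a + 1))).filter fun n => Rec D n) fun n hn => by
        rw [Finset.mem_filter, Finset.mem_Ico] at hn
        exact ⟨hn.1.1, hn.1.2, hn.2⟩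
      have h4 : (((Finset.range (D ^ (a + 1))).filter fun n => Rec D n).card : ℝ) ≤
          K / (q - 1) * q ^ a + K * q ^ a := by
        calc _ ≤ ((((Finset.range (D ^ a)).filter fun n => Rec D n).card +
            ((Finset.Ico (D ^ a) (D ^ (a + 1))).filter fun n => Rec D n).card : ℕ) : ℝ) := by
              exact_mod_cast h2
          _ ≤ _ := by push_cast; exact add_le_add ih h3
      refine h4.trans (le_of_eq ?_)
      rw [pow_succ]
      field_simp
      ring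
  refine ⟨K / (q - 1) * q, by positivity, fun x hx => ?_⟩
  obtain ⟨l, hl1, hl2⟩ := Pool.Agent.H828R3.GP.exists_pow hD hx
  have h1 : {n : ℕ | (n : ℝ) ≤ x ∧ Rec D n} ⊆
      (((Finset.range (D ^ (l + 1))).filter fun n => Rec D n : Finset ℕ) : Set ℕ) := by
    rintro n ⟨h2, h3⟩
    rw [Finset.mem_coe, Finset.mem_filter, Finset.mem_range]
    refine ⟨?_, h3⟩
    have : (n : ℝ) < (D : ℝ) ^ (l + 1) := by
      rw [pow_succ, mul_comm]; exact h2.trans_lt hl2
    exact_mod_cast this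
  have h2 := Set.ncard_le_ncard h1 (Finset.finite_toSet _)
  rw [Set.ncard_coe_finset] at h2
  have h3 : q ^ l ≤ x ^ η := by
    rw [hq, ← Real.rpow_natCast, ← Real.rpow_mul hD0.le, mul_comm, Real.rpow_mul hD0.le,
      Real.rpow_natCast]
    exact Real.rpow_le_rpow (by positivity) hl1 hη.le
  calc (({n : ℕ | (n : ℝ) ≤ x ∧ Rec D n}.ncard : ℕ) : ℝ)
      ≤ (((Finset.range (D ^ (l + 1))).filter fun n => Rec D n).card : ℝ) := by exact_mod_cast h2
    _ ≤ K / (q - 1) * q ^ (l + 1) := hS (l + 1)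
    _ = K / (q - 1) * q * q ^ l := by ring
    _ ≤ K / (q - 1) * q * x ^ η := by
        apply mul_le_mul_of_nonneg_left h3
        positivity

/-- the maxima are attained at record holders -/
theorem maxima {D r n : ℕ} (hr : Rec D r) (hno : ∀ m, r < m → m ≤ n → ¬ Rec D m) :
    ∀ m, 1 ≤ m → m ≤ n → ∀ j, ∃ i, (F D)^[j] m ≤ (F D)^[i] r := by
  intro m
  induction m using Nat.strong_induction_on with
  | _ m ih =>
    intro hm1 hmn j
    rcases Nat.lt_trichotomy m r with h | h | h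
    · obtain ⟨-, k, hk⟩ := hr
      exact ⟨k, (hk m j hm1 h).le⟩
    · exact ⟨j, by rw [h]⟩
    · have h1 := hno m h hmn
      unfold Rec at h1
      push Not at h1
      obtain ⟨m', j', h2, h3, h4⟩ := h1 hm1 j
      obtain ⟨i, hi⟩ := ih m' h3 h2 (by omega) j'
      exact ⟨i, h4.trans hi⟩

/-- `r` reaches at least `(D + 1) ^ a - 1` if `D ^ a ≤ n + 1` -/
theorem lower {D r n : ℕ} (hD : 2 ≤ D) (hr : Rec D r) (hno : ∀ m, r < m → m ≤ n → ¬ Rec D m)
    {a : ℕ} (ha : D ^ a ≤ n + 1) : ∃ i, (D + 1) ^ a ≤ (F D)^[i] r + 1 := by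
  rcases Nat.eq_zero_or_pos a with h0 | h0
  · exact ⟨0, by rw [h0, pow_zero]; omega⟩
  · have hDa : 2 ≤ D ^ a := by
      calc 2 ≤ D ^ 1 := by rw [pow_one]; exact hD
        _ ≤ D ^ a := Nat.pow_le_pow_right (by omega) h0
    obtain ⟨i, hi⟩ := maxima hr hno (D ^ a * 1 - 1) (by omega) (by omega) (2 * a)
    rw [climb hD a 1 le_rfl] at hi
    exact ⟨i, by omega⟩

/-- there are infinitely many record holders if and only if all trajectories are bounded -/
theorem infinite_iff {D : ℕ} :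
    {n : ℕ | Rec D n}.Infinite ↔ ∀ m, 1 ≤ m → ∃ B, ∀ j, (F D)^[j] m ≤ B := by
  constructor
  · intro h m hm
    obtain ⟨n, hn, hmn⟩ := h.exists_gt m
    obtain ⟨-, k, hk⟩ := hn
    exact ⟨_, fun j => (hk m j hm hmn).le⟩
  · intro h hfin
    obtain ⟨N, hN⟩ := hfin.bddAbove
    have hb : ∃ B, ∀ m, 1 ≤ m → m ≤ N → ∀ j, (F D)^[j] m ≤ B := by
      clear hN
      induction N with
      | zero => exact ⟨0, fun m h1 h2 => by omega⟩
      | succ N ih =>
        obtain ⟨B, hB⟩ := ih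
        obtain ⟨B', hB'⟩ := h (N + 1) (by omega)
        refine ⟨max B B', fun m h1 h2 j => ?_⟩
        rcases Nat.lt_or_ge m (N + 1) with h3 | h3
        · exact (hB m h1 (by omega) j).trans (le_max_left _ _)
        · rw [show m = N + 1 by omega]
          exact (hB' j).trans (le_max_right _ _)
    obtain ⟨B, hB⟩ := hb
    have hall : ∀ m, 1 ≤ m → ∀ j, (F D)^[j] m ≤ B := by
      intro m
      induction m using Nat.strong_induction_on with
      | _ m ih =>
        intro hm1 j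
        rcases Nat.lt_or_ge N m with h1 | h1
        · have h2 : ¬ Rec D m := fun h3 => by
            have := hN h3
            omega
          unfold Rec at h2
          push Not at h2
          obtain ⟨m', j', h3, h4, h5⟩ := h2 hm1 j
          exact h5.trans (ih m' h4 h3 j')
        · exact hB m hm1 h1 j
    have h1 := hall (B + 2) (by omega) 0
    simp at h1

end Pool.Agent.X16.WG
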