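import Pool.Agent.X16.WG.B

/-! Wiggin's maps: the entropy exponent. -/

set_option autoImplicit false

namespace Pool.Agent.X16.WG

open Pool.Agent.Results.MP_5317dd_nt.PowerSaving (F mD rD adm exp_ok pow_lt)

/-- `log D / log (D + 1)` -/
noncomputable def th (D : ℕ) : ℝ := Real.log D / Real.log (D + 1)

/-- the `D`-ary entropy of `log D / log (D + 1)` to the base `D` -/
noncomputable def ent (D : ℕ) : ℝ :=
  (Real.binEntropy (th D) + th D * Real.log (D - 1)) / Real.log D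

theorem th_facts {D : ℕ} (hD : 2 ≤ D) : 0 < Real.log D ∧ 0 < Real.log ((D : ℝ) + 1) ∧ 0 < th D ∧
    th D < 1 ∧ th D * Real.log ((D : ℝ) + 1) = Real.log D ∧ (1 - th D) * (D - 1) ≤ th D := by
  have hDR : (2 : ℝ) ≤ D := by exact_mod_cast hD
  have h1 : 0 < Real.log D := Real.log_pos (by linarith)
  have h2 : 0 < Real.log ((D : ℝ) + 1) := Real.log_pos (by linarith)
  have h3 : Real.log D < Real.log ((D : ℝ) + 1) := Real.log_lt_log (by linarith) (by linarith)
  have h4 : th D * Real.log ((D : ℝ) + 1) = Real.log D := by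
    unfold th; rw [div_mul_cancel₀ _ h2.ne']
  refine ⟨h1, h2, div_pos h1 h2, by unfold th; rw [div_lt_one h2]; exact h3, h4, ?_⟩
  obtain ⟨e, rfl⟩ : ∃ e, D = e + 1 := ⟨D - 1, by omega⟩
  have h5 := pow_lt e (by omega)
  have h6 : ((e : ℝ) + 2) ^ e ≤ ((e : ℝ) + 1) ^ (e + 1) := by exact_mod_cast h5.le
  have h7 := Real.log_le_log (by positivity) h6
  rw [Real.log_pow, Real.log_pow] at h7
  push_cast at h7 h4 h2 ⊢
  have e1 : (e : ℝ) + 1 + 1 = e + 2 := by ring
  rw [e1] at h4 h2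
  have h8 : (e : ℝ) * Real.log (e + 2) ≤ (e + 1) * (th (e + 1) * Real.log (e + 2)) := by
    rw [h4]; exact h7
  have h9 : (e : ℝ) ≤ (e + 1) * th (e + 1) := by
    by_contra hcon
    push Not at hcon
    have := mul_lt_mul_of_pos_right hcon h2
    linarith
  linarith

theorem ent_le {D : ℕ} (hD : 2 ≤ D) {s η : ℝ}
    (h : 1 + ((D : ℝ) - 1) * ((D : ℝ) + 1) ^ s ≤ (D : ℝ) ^ (s + η)) : ent D ≤ η := by
  obtain ⟨h1, h2, h3, h4, h5, -⟩ := th_facts hD
  have hDR : (2 : ℝ) ≤ D := by exact_mod_cast hD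
  have hz : 0 < ((D : ℝ) + 1) ^ s := by positivity
  have hD1 : (0 : ℝ) < D - 1 := by linarith
  set θ := th D with hθ
  have hp1 : 0 < (1 - θ)⁻¹ := inv_pos.2 (by linarith)
  have hp2 : 0 < ((D : ℝ) - 1) * ((D : ℝ) + 1) ^ s / θ := by positivity
  have g := Real.geom_mean_le_arith_mean2_weighted (by linarith : 0 ≤ 1 - θ) h3.le hp1.le hp2.le
    (by ring)
  have e1 : (1 - θ) * (1 - θ)⁻¹ + θ * (((D : ℝ) - 1) * ((D : ℝ) + 1) ^ s / θ) =
      1 + ((D : ℝ) - 1) * ((D : ℝ) + 1) ^ s := by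
    rw [mul_inv_cancel₀ (by linarith), mul_div_cancel₀ _ h3.ne']
  rw [e1] at g
  have g2 := Real.log_le_log (by positivity) (g.trans h)
  rw [Real.log_mul (by positivity) (by positivity), Real.log_rpow hp1, Real.log_rpow hp2,
    Real.log_rpow (by linarith), Real.log_inv, Real.log_div (by positivity) h3.ne',
    Real.log_mul hD1.ne' hz.ne', Real.log_rpow (by linarith)] at g2
  unfold ent
  rw [← hθ, div_le_iff₀ h1, Real.binEntropy, Real.log_inv, Real.log_inv]
  have g3 : θ * (s * Real.log ((D : ℝ) + 1)) = s * Real.log D := by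
    rw [← h5]; ring
  nlinarith

theorem ent_eq {D : ℕ} (hD : 2 ≤ D) : ∃ s : ℝ, 0 ≤ s ∧
    1 + ((D : ℝ) - 1) * ((D : ℝ) + 1) ^ s = (D : ℝ) ^ (s + ent D) := by
  obtain ⟨h1, h2, h3, h4, h5, h6⟩ := th_facts hD
  have hDR : (2 : ℝ) ≤ D := by exact_mod_cast hD
  have hD1 : (0 : ℝ) < D - 1 := by linarith
  set θ := th D with hθ
  have h7 : 0 < 1 - θ := by linarith
  set z : ℝ := θ / ((1 - θ) * (D - 1)) with hz
  have hz0 : 0 < z := by positivity
  have hz1 : 1 ≤ z := by rw [hz, one_le_div (by positivity)]; exact h6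
  refine ⟨Real.log z / Real.log ((D : ℝ) + 1), div_nonneg (Real.log_nonneg hz1) h2.le, ?_⟩
  have e1 : ((D : ℝ) + 1) ^ (Real.log z / Real.log ((D : ℝ) + 1)) = z := by
    rw [Real.rpow_def_of_pos (by linarith), mul_div_cancel₀ _ h2.ne', Real.exp_log hz0]
  rw [e1, Real.rpow_def_of_pos (by linarith)]
  have e2 : Real.log D * (Real.log z / Real.log ((D : ℝ) + 1) + ent D) = Real.log (1 - θ)⁻¹ := by
    have e3 : Real.log D * (Real.log z / Real.log ((D : ℝ) + 1)) = θ * Real.log z := by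
      rw [hθ]; unfold th; ring
    have e4 : Real.log D * ent D = Real.binEntropy θ + θ * Real.log (D - 1) := by
      unfold ent; rw [← hθ, mul_div_cancel₀ _ h1.ne']
    rw [mul_add, e3, e4, hz, Real.log_div h3.ne' (by positivity), Real.log_mul h7.ne' hD1.ne',
      Real.binEntropy, Real.log_inv, Real.log_inv]
    ring
  rw [e2, Real.exp_log (inv_pos.2 h7), hz]
  field_simp
  ring

theorem ent_facts {D : ℕ} (hD : 2 ≤ D) : 0 < ent D ∧ ent D < 1 - 1 / (30 * D * Real.log D) := by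
  obtain ⟨h1, h2, h3, h4, h5, h6⟩ := th_facts hD
  have hDR : (2 : ℝ) ≤ D := by exact_mod_cast hD
  constructor
  · unfold ent
    apply div_pos _ h1
    have := Real.binEntropy_pos h3 h4
    have h7 : 0 ≤ Real.log ((D : ℝ) - 1) := Real.log_nonneg (by linarith)
    have := mul_nonneg h3.le h7
    linarith
  · obtain ⟨η, -, g1, g2⟩ := exp_ok D hD
    refine lt_of_le_of_lt (ent_le hD (s := 1 / 2) ?_) g1
    have hD0 : (0 : ℝ) < D := by linarith
    have e : ∑ j ∈ Finset.range D, (|(mD D j : ℝ)| / D) ^ (1 / 2 : ℝ) =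
        (1 + ((D : ℝ) - 1) * ((D : ℝ) + 1) ^ (1 / 2 : ℝ)) / (D : ℝ) ^ (1 / 2 : ℝ) := by
      obtain ⟨e, rfl⟩ : ∃ e, D = e + 1 := ⟨D - 1, by omega⟩
      rw [Finset.sum_range_succ']
      have a1 : ∀ i ∈ Finset.range e, (|(mD (e + 1) (i + 1) : ℝ)| / ((e + 1 : ℕ) : ℝ)) ^ (1 / 2 : ℝ)
          = (((e + 1 : ℕ) : ℝ) + 1) ^ (1 / 2 : ℝ) / ((e + 1 : ℕ) : ℝ) ^ (1 / 2 : ℝ) := by
        intro i _
        simp only [mD]
        rw [if_neg (by omega)]
        push_cast
        rw [abs_of_pos (by positivity), Real.div_rpow (by positivity) (by positivity)]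
      rw [Finset.sum_congr rfl a1, Finset.sum_const, Finset.card_range, nsmul_eq_mul]
      have a2 : (|(mD (e + 1) 0 : ℝ)| / ((e + 1 : ℕ) : ℝ)) ^ (1 / 2 : ℝ) =
          1 / ((e + 1 : ℕ) : ℝ) ^ (1 / 2 : ℝ) := by
        simp only [mD, if_true, Int.cast_one, abs_one]
        rw [Real.div_rpow (by positivity) (by positivity), Real.one_rpow]
      rw [a2]
      push_cast
      ring
    rw [e, div_le_iff₀ (by positivity), ← Real.rpow_add hD0] at g2
    rw [add_comm]
    exact (add_comm (1 : ℝ) _ ▸ g2).trans (le_of_eq (by rw [add_comm]))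

end Pool.Agent.X16.WG
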