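import Pool.Agent.X16.WG.C

/-! Wiggin's maps: large excursions before the first drop. -/

set_option autoImplicit false

namespace Pool.Agent.X16.WG

open Pool.Agent.Results.MP_5317dd_nt.PowerSaving (F mD rD adm)
open Pool.Agent.H319R3.GC (Adm Tm PP LW wd)

theorem count1 {D : ℕ} (hD : 2 ≤ D) {b L : ℕ} {R : ℝ} (hR : 0 < R) (A : Finset ℕ)
    (hA : ∀ n ∈ A, n < D ^ b * L ∧ R * (D : ℝ) ^ b ≤ 3 * ((D : ℝ) + 1) ^ cz (wn D b n)) :
    (A.card : ℝ) ≤ 3 * (L * (D : ℝ) ^ b) / R := by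
  classical
  have hDR : (0 : ℝ) < D := by exact_mod_cast (by omega : 0 < D)
  have hDb : 0 < D ^ b := Nat.pow_pos (by omega)
  have h1 : A.card ≤ L * (A.image (wn D b)).card := by
    apply Finset.card_le_mul_card_image
    intro w _
    have : ((A.filter fun n => wn D b n = w).image (· / D ^ b)).card =
        (A.filter fun n => wn D b n = w).card := by
      apply Finset.card_image_of_injOn
      intro x hx y hy hxy
      have hx1 := (Finset.mem_filter.1 hx).2
      have hy1 := (Finset.mem_filter.1 hy).2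
      have h3 := wn_cong hD (hx1.trans hy1.symm)
      have h4 : x / D ^ b = y / D ^ b := hxy
      rw [← Nat.div_add_mod x (D ^ b), ← Nat.div_add_mod y (D ^ b), h3, h4]
    rw [← this]
    calc ((A.filter fun n => wn D b n = w).image (· / D ^ b)).card ≤ (Finset.range L).card := by
          apply Finset.card_le_card
          intro q hq
          obtain ⟨x, hx, rfl⟩ := Finset.mem_image.1 hq
          rw [Finset.mem_range]
          exact Nat.div_lt_of_lt_mul (hA x (Finset.mem_filter.1 hx).1).1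
      _ = L := Finset.card_range L
  have h2 : ((A.image (wn D b)).card : ℝ) ≤
      ∑ w ∈ LW D b, 3 * ((D : ℝ) + 1) ^ cz w / (R * (D : ℝ) ^ b) := by
    calc ((A.image (wn D b)).card : ℝ) = ∑ w ∈ A.image (wn D b), (1 : ℝ) := by simp
      _ ≤ ∑ w ∈ A.image (wn D b), 3 * ((D : ℝ) + 1) ^ cz w / (R * (D : ℝ) ^ b) := by
          apply Finset.sum_le_sum
          intro w hw
          obtain ⟨n, hn, rfl⟩ := Finset.mem_image.1 hw
          rw [one_le_div (by positivity)]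
          exact (hA n hn).2
      _ ≤ _ := by
          apply Finset.sum_le_sum_of_subset_of_nonneg
          · intro w hw
            obtain ⟨n, hn, rfl⟩ := Finset.mem_image.1 hw
            exact wn_mem hD b n
          · intro w _ _
            positivity
  have h3 : ∑ w ∈ LW D b, 3 * ((D : ℝ) + 1) ^ cz w / (R * (D : ℝ) ^ b) = 3 * (D : ℝ) ^ b / R := by
    rw [← Finset.sum_div, ← Finset.mul_sum, sum_cz D (by omega),
      show 1 + ((D : ℝ) - 1) * ((D : ℝ) + 1) = D * D by ring, mul_pow]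
    field_simp
  calc (A.card : ℝ) ≤ L * ((A.image (wn D b)).card : ℝ) := by exact_mod_cast h1
    _ ≤ L * ∑ w ∈ LW D b, 3 * ((D : ℝ) + 1) ^ cz w / (R * (D : ℝ) ^ b) :=
        mul_le_mul_of_nonneg_left h2 (Nat.cast_nonneg _)
    _ = _ := by rw [h3]; ring

theorem growth3 {D : ℕ} (hD : 2 ≤ D) {n b : ℕ} (hn : 1 ≤ n) (hb : b ≤ n)
    (h : ∀ j ≤ b, n ≤ (T D)^[j] n) :
    ((T D)^[b] n : ℝ) * (D : ℝ) ^ b ≤ 3 * ((D : ℝ) + 1) ^ cz (wn D b n) * n := by
  have hnR : (0 : ℝ) < n := by exact_mod_cast hn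
  have h3 : (1 + 1 / (n : ℝ)) ^ b ≤ 3 := by
    calc (1 + 1 / (n : ℝ)) ^ b ≤ (Real.exp (1 / n)) ^ b := by
          apply pow_le_pow_left₀ (by positivity)
          have := Real.add_one_le_exp (1 / (n : ℝ)); linarith
      _ = Real.exp (b * (1 / n)) := by rw [← Real.exp_nat_mul]
      _ ≤ Real.exp 1 := by
          apply Real.exp_le_exp.2
          rw [mul_one_div, div_le_one hnR]
          exact_mod_cast hb
      _ ≤ 3 := by have := Real.exp_one_lt_d9; linarith
  refine (growth hD hn b n h).trans ?_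
  calc ((D : ℝ) + 1) ^ cz (wn D b n) * n * (1 + 1 / (n : ℝ)) ^ b
      ≤ ((D : ℝ) + 1) ^ cz (wn D b n) * n * 3 := by gcongr
    _ = _ := by ring

/-- the trajectory of `n` reaches `n ^ β` before it drops below `n` -/
def Reach (D : ℕ) (β : ℝ) (n : ℕ) : Prop :=
  1 ≤ n ∧ ∃ K : ℕ, (n : ℝ) ^ β ≤ (((F D)^[K] n : ℕ) : ℝ) ∧ ∀ j ≤ K, n ≤ (F D)^[j] n

theorem reach_cases {D : ℕ} (hD : 2 ≤ D) {β : ℝ} (hβ : 1 ≤ β) {a n : ℕ} (h1 : D ^ a ≤ n)
    (hn : Reach D β n) :
    (∃ k ≤ a, ((D : ℝ) ^ (β - 1)) ^ a / (D + 2) * (D : ℝ) ^ k ≤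
      3 * ((D : ℝ) + 1) ^ cz (wn D k n)) ∨ (D : ℝ) ^ a ≤ 3 * ((D : ℝ) + 1) ^ cz (wn D a n) := by
  obtain ⟨hn1, K, hK, hstay⟩ := hn
  obtain ⟨k, hk1, hk2⟩ := F_T hD n K
  have hDR : (0 : ℝ) < D := by exact_mod_cast (by omega : 0 < D)
  have hD1 : (1 : ℝ) ≤ D := by exact_mod_cast (by omega : 1 ≤ D)
  have hnR : (0 : ℝ) < n := by exact_mod_cast hn1
  have hT : ∀ j ≤ k, n ≤ (T D)^[j] n := fun j hj => by
    obtain ⟨i, hi, h⟩ := hk1 j hj
    rw [← h]
    exact hstay i hi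
  have han : a ≤ n := by
    calc a ≤ D ^ a := (Nat.lt_pow_self (by omega)).le
      _ ≤ n := h1
  rcases Nat.lt_or_ge a k with hak | hak
  · exact Or.inr (big_cz hD hn1 han fun j hj => hT j (by omega))
  · refine Or.inl ⟨k, hak, ?_⟩
    have g1 := growth3 hD hn1 (hak.trans han) hT
    have g2 : (F D)^[K] n ≤ (D + 2) * (T D)^[k] n := by
      have h0 : 1 ≤ (T D)^[k] n := hn1.trans (hT k le_rfl)
      rcases hk2 with h | ⟨h0', h⟩
      · rw [h]; nlinarith [Nat.zero_le (D * (T D)^[k] n)]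
      · rw [h]
        have := (F_cases hD h0').2.1
        nlinarith
    have g3 : (n : ℝ) ^ β ≤ ((D : ℝ) + 2) * ((T D)^[k] n : ℝ) := by
      refine hK.trans ?_
      exact_mod_cast g2
    have g4 : (n : ℝ) ^ β = (n : ℝ) ^ (β - 1) * n := by
      rw [← Real.rpow_add_one hnR.ne', sub_add_cancel]
    have g5 : ((D : ℝ) ^ (β - 1)) ^ a ≤ (n : ℝ) ^ (β - 1) := by
      rw [← Real.rpow_natCast, ← Real.rpow_mul hDR.le, mul_comm, Real.rpow_mul hDR.le,
        Real.rpow_natCast]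
      exact Real.rpow_le_rpow (by positivity) (by exact_mod_cast h1) (by linarith)
    have g6 : (n : ℝ) * (((D : ℝ) ^ (β - 1)) ^ a / (D + 2) * (D : ℝ) ^ k) ≤
        n * (3 * ((D : ℝ) + 1) ^ cz (wn D k n)) := by
      calc (n : ℝ) * (((D : ℝ) ^ (β - 1)) ^ a / (D + 2) * (D : ℝ) ^ k)
          ≤ (n : ℝ) * ((n : ℝ) ^ (β - 1) / (D + 2) * (D : ℝ) ^ k) := by gcongr
        _ = ((n : ℝ) ^ (β - 1) * n) / (D + 2) * (D : ℝ) ^ k := by ring
        _ ≤ (((D : ℝ) + 2) * ((T D)^[k] n : ℝ)) / (D + 2) * (D : ℝ) ^ k := by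
            rw [← g4]; gcongr
        _ = ((T D)^[k] n : ℝ) * (D : ℝ) ^ k := by
            rw [mul_div_cancel_left₀ _ (by positivity)]
        _ ≤ 3 * ((D : ℝ) + 1) ^ cz (wn D k n) * n := g1
        _ = _ := by ring
    exact le_of_mul_le_mul_left g6 hnR

theorem reach_block {D : ℕ} (hD : 2 ≤ D) {β η : ℝ} (hβ : 1 ≤ β) (h1 : 2 - β < η)
    (h2 : ent D ≤ η) : ∃ K : ℝ, 0 < K ∧ ∀ (a : ℕ) (A : Finset ℕ),
      (∀ n ∈ A, D ^ a ≤ n ∧ n < D ^ (a + 1) ∧ Reach D β n) →
        (A.card : ℝ) ≤ K * ((D : ℝ) ^ η) ^ a := by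
  classical
  have hDR : (1 : ℝ) < D := by exact_mod_cast (by omega : 1 < D)
  have hD0 : (0 : ℝ) < D := by linarith
  have hlog : 0 < Real.log D := Real.log_pos hDR
  obtain ⟨s, hs, hse⟩ := ent_eq hD
  set δ : ℝ := (η - (2 - β)) * Real.log D with hδ
  have hδ0 : 0 < δ := mul_pos (by linarith) hlog
  refine ⟨(1 / δ + 1) * (3 * (D + 2) * D) + D * 3 ^ s, by positivity, fun a A hA => ?_⟩
  let B : ℕ → Finset ℕ := fun k => (Finset.range (D ^ (a + 1))).filter fun n =>
    ((D : ℝ) ^ (β - 1)) ^ a / (D + 2) * (D : ℝ) ^ k ≤ 3 * ((D : ℝ) + 1) ^ cz (wn D k n)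
  let B' : Finset ℕ := (Finset.range (D ^ (a + 1))).filter fun n =>
    (D : ℝ) ^ a ≤ 3 * ((D : ℝ) + 1) ^ cz (wn D a n)
  have hsub : A ⊆ (Finset.range (a + 1)).biUnion B ∪ B' := by
    intro n hn
    obtain ⟨g1, g2, g3⟩ := hA n hn
    rw [Finset.mem_union, Finset.mem_biUnion]
    rcases reach_cases hD hβ g1 g3 with ⟨k, hk, h⟩ | h
    · exact Or.inl ⟨k, Finset.mem_range.2 (by omega),
        Finset.mem_filter.2 ⟨Finset.mem_range.2 g2, h⟩⟩
    · exact Or.inr (Finset.mem_filter.2 ⟨Finset.mem_range.2 g2, h⟩)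
  have hB : ∀ k ∈ Finset.range (a + 1), ((B k).card : ℝ) ≤
      3 * (D + 2) * D * ((D : ℝ) ^ (2 - β)) ^ a := by
    intro k hk
    have hk' : k ≤ a := by have := Finset.mem_range.1 hk; omega
    obtain ⟨c, rfl⟩ : ∃ c, a = k + c := ⟨a - k, by omega⟩
    have := count1 hD (b := k) (L := D ^ (c + 1)) (R := ((D : ℝ) ^ (β - 1)) ^ (k + c) / (D + 2))
      (by positivity) (B k) fun n hn => by
        obtain ⟨e1, e2⟩ := Finset.mem_filter.1 hn
        refine ⟨?_, e2⟩
        rw [← pow_add, ← add_assoc]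
        exact Finset.mem_range.1 e1
    refine this.trans (le_of_eq ?_)
    push_cast
    have e : ((D : ℝ) ^ (2 - β)) ^ (k + c) * ((D : ℝ) ^ (β - 1)) ^ (k + c) = (D : ℝ) ^ (k + c) := by
      rw [← mul_pow, ← Real.rpow_add hD0, show 2 - β + (β - 1) = 1 by ring, Real.rpow_one]
    have e0 : ((D : ℝ) ^ (β - 1)) ^ (k + c) ≠ 0 := by positivity
    rw [div_div_eq_mul_div, div_eq_iff e0]
    calc 3 * ((D : ℝ) ^ (c + 1) * (D : ℝ) ^ k) * (D + 2) = 3 * (D + 2) * D * (D : ℝ) ^ (k + c) := by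
          ring
      _ = _ := by rw [← e]; ring
  have hB' : (B'.card : ℝ) ≤ D * 3 ^ s * ((D : ℝ) ^ ent D) ^ a := by
    have := count hD (b := a) (L := D) hs B' fun n hn => by
      obtain ⟨e1, e2⟩ := Finset.mem_filter.1 hn
      exact ⟨by rw [← pow_succ]; exact Finset.mem_range.1 e1, e2⟩
    refine this.trans (le_of_eq ?_)
    rw [hse, add_comm s, Real.rpow_add hD0, mul_div_cancel_right₀ _ (by positivity)]
    ring
  have hcard : (A.card : ℝ) ≤ (a + 1) * (3 * (D + 2) * D * ((D : ℝ) ^ (2 - β)) ^ a) +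
      D * 3 ^ s * ((D : ℝ) ^ ent D) ^ a := by
    have e1 := (Finset.card_le_card hsub).trans (Finset.card_union_le _ _)
    have e2 : (((Finset.range (a + 1)).biUnion B).card : ℝ) ≤
        ∑ k ∈ Finset.range (a + 1), ((B k).card : ℝ) := by
      exact_mod_cast Finset.card_biUnion_le
    have e3 := Finset.sum_le_sum hB
    rw [Finset.sum_const, Finset.card_range, nsmul_eq_mul] at e3
    push_cast at e3
    have e4 : (A.card : ℝ) ≤ (((Finset.range (a + 1)).biUnion B).card : ℝ) + (B'.card : ℝ) := by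
      exact_mod_cast e1
    linarith
  have hq0 : 0 < ((D : ℝ) ^ (2 - β)) ^ a := by positivity
  have hexp : ((a : ℝ) + 1) * ((D : ℝ) ^ (2 - β)) ^ a ≤ (1 / δ + 1) * ((D : ℝ) ^ η) ^ a := by
    have e1 : ((D : ℝ) ^ η) ^ a = ((D : ℝ) ^ (2 - β)) ^ a * Real.exp (a * δ) := by
      have : (D : ℝ) ^ η = (D : ℝ) ^ (2 - β) * Real.exp δ := by
        rw [hδ, mul_comm (η - (2 - β)), ← Real.rpow_def_of_pos hD0, ← Real.rpow_add hD0]
        congr 1
        ring
      rw [this, mul_pow, ← Real.exp_nat_mul]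
    have e2 : (a : ℝ) * δ + 1 ≤ Real.exp (a * δ) := Real.add_one_le_exp _
    have e3 : (a : ℝ) + 1 ≤ (1 / δ + 1) * Real.exp (a * δ) := by
      have ha : (0 : ℝ) ≤ a := Nat.cast_nonneg a
      have e4 : (a : ℝ) ≤ 1 / δ * Real.exp (a * δ) := by
        rw [one_div, inv_mul_eq_div, le_div_iff₀ hδ0]
        linarith
      have e5 : (1 : ℝ) ≤ Real.exp (a * δ) := by
        have := mul_nonneg ha hδ0.le
        linarith
      linarith
    rw [e1]
    calc ((a : ℝ) + 1) * ((D : ℝ) ^ (2 - β)) ^ a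
        ≤ ((1 / δ + 1) * Real.exp (a * δ)) * ((D : ℝ) ^ (2 - β)) ^ a := by gcongr
      _ = _ := by ring
  have hent : ((D : ℝ) ^ ent D) ^ a ≤ ((D : ℝ) ^ η) ^ a := by
    apply pow_le_pow_left₀ (by positivity)
    exact Real.rpow_le_rpow_of_exponent_le hDR.le h2
  calc (A.card : ℝ) ≤ (a + 1) * (3 * (D + 2) * D * ((D : ℝ) ^ (2 - β)) ^ a) +
      D * 3 ^ s * ((D : ℝ) ^ ent D) ^ a := hcard
    _ = (3 * (D + 2) * D) * (((a : ℝ) + 1) * ((D : ℝ) ^ (2 - β)) ^ a) +
      D * 3 ^ s * ((D : ℝ) ^ ent D) ^ a := by ring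
    _ ≤ (3 * (D + 2) * D) * ((1 / δ + 1) * ((D : ℝ) ^ η) ^ a) +
      D * 3 ^ s * ((D : ℝ) ^ η) ^ a := by gcongr
    _ = _ := by ring

theorem reach_total {D : ℕ} (hD : 2 ≤ D) {β η : ℝ} (hβ : 1 ≤ β) (h1 : 2 - β < η)
    (h2 : ent D ≤ η) : ∃ K : ℝ, 0 < K ∧ ∀ x : ℝ, 1 ≤ x →
      (({n : ℕ | (n : ℝ) ≤ x ∧ Reach D β n}.ncard : ℕ) : ℝ) ≤ K * x ^ η := by
  classical
  have hη : 0 < η := (ent_facts hD).1.trans_le h2
  have hDR : (1 : ℝ) < D := by exact_mod_cast (by omega : 1 < D)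
  have hD0 : (0 : ℝ) < D := by linarith
  obtain ⟨K, hK, hb⟩ := reach_block hD hβ h1 h2
  have hη1 : 1 < (D : ℝ) ^ η := Real.one_lt_rpow hDR hη
  set q : ℝ := (D : ℝ) ^ η with hq
  have hq1 : 0 < q - 1 := by linarith
  have hS : ∀ a : ℕ, (((Finset.range (D ^ a)).filter fun n => Reach D β n).card : ℝ) ≤
      K / (q - 1) * q ^ a := by
    intro a
    induction a with
    | zero =>
      have : ((Finset.range (D ^ 0)).filter fun n => Reach D β n).card = 0 := by
        rw [Finset.card_eq_zero, Finset.filter_eq_empty_iff]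
        intro n hn hr
        have := hr.1
        rw [pow_zero, Finset.mem_range] at hn
        omega
      rw [this]
      simp only [Nat.cast_zero]
      positivity
    | succ a ih =>
      have h1 : ((Finset.range (D ^ (a + 1))).filter fun n => Reach D β n) ⊆
          ((Finset.range (D ^ a)).filter fun n => Reach D β n) ∪
          ((Finset.Ico (D ^ a) (D ^ (a + 1))).filter fun n => Reach D β n) := by
        intro n hn
        rw [Finset.mem_filter, Finset.mem_range] at hn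
        rw [Finset.mem_union, Finset.mem_filter, Finset.mem_filter, Finset.mem_range,
          Finset.mem_Ico]
        rcases Nat.lt_or_ge n (D ^ a) with h2 | h2
        · exact Or.inl ⟨h2, hn.2⟩
        · exact Or.inr ⟨⟨h2, hn.1⟩, hn.2⟩
      have h2 := (Finset.card_le_card h1).trans (Finset.card_union_le _ _)
      have h3 := hb a ((Finset.Ico (D ^ a) (D ^ (a + 1))).filter fun n => Reach D β n)
        fun n hn => by
          rw [Finset.mem_filter, Finset.mem_Ico] at hn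
          exact ⟨hn.1.1, hn.1.2, hn.2⟩
      have h4 : (((Finset.range (D ^ (a + 1))).filter fun n => Reach D β n).card : ℝ) ≤
          K / (q - 1) * q ^ a + K * q ^ a := by
        calc _ ≤ ((((Finset.range (D ^ a)).filter fun n => Reach D β n).card +
            ((Finset.Ico (D ^ a) (D ^ (a + 1))).filter fun n => Reach D β n).card : ℕ) : ℝ) := by
              exact_mod_cast h2
          _ ≤ _ := by push_cast; exact add_le_add ih h3
      refine h4.trans (le_of_eq ?_)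
      rw [pow_succ]
      field_simp
      ring
  refine ⟨K / (q - 1) * q, by positivity, fun x hx => ?_⟩
  obtain ⟨l, hl1, hl2⟩ := Pool.Agent.H828R3.GP.exists_pow hD hx
  have h1 : {n : ℕ | (n : ℝ) ≤ x ∧ Reach D β n} ⊆
      (((Finset.range (D ^ (l + 1))).filter fun n => Reach D β n : Finset ℕ) : Set ℕ) := by
    rintro n ⟨h2, h3⟩
    rw [Finset.mem_coe, Finset.mem_filter, Finset.mem_range]
    refine ⟨?_, h3⟩
    have : (n : ℝ) < (D : ℝ) ^ (l + 1) := by
      rw [pow_succ, mul_comm]; exact h2.trans_lt hl2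
    exact_mod_cast this
  have h2 := Set.ncard_le_ncard h1 (Finset.finite_toSet _)
  rw [Set.ncard_coe_finset] at h2
  have h3 : q ^ l ≤ x ^ η := by
    rw [hq, ← Real.rpow_natCast, ← Real.rpow_mul hD0.le, mul_comm, Real.rpow_mul hD0.le,
      Real.rpow_natCast]
    exact Real.rpow_le_rpow (by positivity) hl1 hη.le
  calc (({n : ℕ | (n : ℝ) ≤ x ∧ Reach D β n}.ncard : ℕ) : ℝ)
      ≤ (((Finset.range (D ^ (l + 1))).filter fun n => Reach D β n).card : ℝ) := by
        exact_mod_cast h2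
    _ ≤ K / (q - 1) * q ^ (l + 1) := hS (l + 1)
    _ = K / (q - 1) * q * q ^ l := by ring
    _ ≤ K / (q - 1) * q * x ^ η := by
        apply mul_le_mul_of_nonneg_left h3
        positivity

end Pool.Agent.X16.WG
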