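import Pool.Agent.X16.WG.D

/-! Wiggin's maps: many numbers with large excursions. -/

set_option autoImplicit false

namespace Pool.Agent.X16.WG

open Pool.Agent.Results.MP_5317dd_nt.PowerSaving (F)

theorem stay {D : ℕ} (hD : 2 ≤ D) {j v : ℕ} (hv : 1 ≤ v) (i : ℕ) (hi : i ≤ 2 * j) :
    D ^ j * v - 1 ≤ (F D)^[i] (D ^ j * v - 1) := by
  have key : ∀ i' ≤ j, (F D)^[2 * i'] (D ^ j * v - 1) = (D + 1) ^ i' * (D ^ (j - i') * v) - 1 ∧
      D ^ j * v ≤ (D + 1) ^ i' * (D ^ (j - i') * v) := by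
    intro i' hi'
    have e : D ^ j * v = D ^ i' * (D ^ (j - i') * v) := by
      rw [← mul_assoc, ← pow_add, Nat.add_sub_cancel' hi']
    have hpos : 1 ≤ D ^ (j - i') * v := Nat.mul_pos (Nat.pow_pos (by omega)) hv
    refine ⟨by rw [e]; exact climb hD i' _ hpos, ?_⟩
    rw [e]
    exact Nat.mul_le_mul_right _ (Nat.pow_le_pow_left (by omega) _)
  rcases Nat.even_or_odd' i with ⟨i', h | h⟩
  · obtain ⟨h1, h2⟩ := key i' (by omega)
    rw [h, h1]
    omega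
  · have hlt : i' < j := by omega
    obtain ⟨h1, h2⟩ := key i' hlt.le
    rw [h, Function.iterate_succ_apply', h1]
    obtain ⟨c, hc⟩ : ∃ c, j - i' = c + 1 := ⟨j - i' - 1, by omega⟩
    have hd : D ∣ (D + 1) ^ i' * (D ^ (j - i') * v) := by
      rw [hc, pow_succ]
      exact ⟨(D + 1) ^ i' * (D ^ c * v), by ring⟩
    have hpos : 1 ≤ (D + 1) ^ i' * (D ^ (j - i') * v) :=
      Nat.mul_pos (Nat.pow_pos (by omega)) (Nat.mul_pos (Nat.pow_pos (by omega)) hv)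
    have hne : ((D + 1) ^ i' * (D ^ (j - i') * v) - 1) % D ≠ 0 := by
      intro h0
      have h3 := Nat.dvd_of_mod_eq_zero h0
      have h4 : D ∣ ((D + 1) ^ i' * (D ^ (j - i') * v) - 1) + 1 := by
        rw [Nat.sub_add_cancel hpos]; exact hd
      have h5 := (Nat.dvd_add_right h3).1 h4
      have := Nat.le_of_dvd one_pos h5
      omega
    have h6 := (F_cases hD hne).2.2.1
    omega

theorem reach_low {D : ℕ} (hD : 2 ≤ D) {β : ℝ} (hβ : 1 ≤ β) {x : ℝ} (hx : 1 ≤ x) :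
    x ^ (1 - (β - 1) * Real.log D / Real.log (((D : ℝ) + 1) / D)) / D - 2 ≤
      (({n : ℕ | (n : ℝ) ≤ x ∧ Reach D β n}.ncard : ℕ) : ℝ) := by
  have hDR : (1 : ℝ) < D := by exact_mod_cast (by omega : 1 < D)
  have hD0 : (0 : ℝ) < D := by linarith
  have hx0 : 0 < x := by linarith
  set ρ : ℝ := ((D : ℝ) + 1) / D with hρ
  have hρ1 : 1 < ρ := by rw [hρ, one_lt_div hD0]; linarith
  have hlρ : 0 < Real.log ρ := Real.log_pos hρ1
  have hlx : 0 ≤ Real.log x := Real.log_nonneg hx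
  have hlD : 0 < Real.log D := Real.log_pos hDR
  set y : ℝ := (β - 1) * Real.log x / Real.log ρ with hy
  have hy0 : 0 ≤ y := div_nonneg (mul_nonneg (by linarith) hlx) hlρ.le
  set j : ℕ := ⌈y⌉₊ with hj
  have hj1 : y ≤ j := Nat.le_ceil y
  have hj2 : (j : ℝ) ≤ y + 1 := (Nat.ceil_lt_add_one hy0).le
  have hR : x ^ (β - 1) ≤ ρ ^ j := by
    rw [Real.rpow_def_of_pos hx0, ← Real.rpow_natCast, Real.rpow_def_of_pos (by linarith)]
    apply Real.exp_le_exp.2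
    have := mul_le_mul_of_nonneg_left hj1 hlρ.le
    rw [hy, mul_div_cancel₀ _ hlρ.ne'] at this
    linarith
  have hDj : (D : ℝ) ^ j ≤ D * x ^ ((β - 1) * Real.log D / Real.log ρ) := by
    have e1 : (D : ℝ) * x ^ ((β - 1) * Real.log D / Real.log ρ) =
        Real.exp (Real.log D * (y + 1)) := by
      rw [Real.rpow_def_of_pos hx0]
      nth_rewrite 1 [← Real.exp_log hD0]
      rw [← Real.exp_add]
      congr 1
      rw [hy]
      ring
    rw [e1, ← Real.rpow_natCast, Real.rpow_def_of_pos hD0]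
    exact Real.exp_le_exp.2 (mul_le_mul_of_nonneg_left hj2 hlD.le)
  set V : ℕ := ⌊x / (D : ℝ) ^ j⌋₊ with hV
  have hV1 : x / (D : ℝ) ^ j - 1 ≤ V := (Nat.sub_one_lt_floor _).le
  have hinj : Set.InjOn (fun v : ℕ => D ^ j * v - 1) (Finset.Icc 2 V : Finset ℕ) := by
    intro a ha b hb hab
    have ha' := (Finset.mem_Icc.1 (Finset.mem_coe.1 ha)).1
    have hb' := (Finset.mem_Icc.1 (Finset.mem_coe.1 hb)).1
    have hp : 0 < D ^ j := Nat.pow_pos (by omega)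
    have h1 : 1 ≤ D ^ j * a := Nat.mul_pos hp (by omega)
    have h2 : 1 ≤ D ^ j * b := Nat.mul_pos hp (by omega)
    have h3 : D ^ j * a - 1 = D ^ j * b - 1 := hab
    exact Nat.eq_of_mul_eq_mul_left hp (by omega)
  have hfin : {n : ℕ | (n : ℝ) ≤ x ∧ Reach D β n}.Finite := by
    refine (Set.finite_Iic ⌊x⌋₊).subset fun n hn => ?_
    exact Nat.le_floor hn.1
  have hsub : (((Finset.Icc 2 V).image fun v : ℕ => D ^ j * v - 1 : Finset ℕ) : Set ℕ) ⊆
      {n : ℕ | (n : ℝ) ≤ x ∧ Reach D β n} := by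
    intro n hn
    rw [Finset.coe_image] at hn
    obtain ⟨v, hv, rfl⟩ := hn
    obtain ⟨hv1, hv2⟩ := Finset.mem_Icc.1 (Finset.mem_coe.1 hv)
    have hp : 1 ≤ D ^ j := Nat.pow_pos (by omega)
    have h1 : 2 ≤ D ^ j * v := by nlinarith
    have hle : ((D ^ j * v : ℕ) : ℝ) ≤ x := by
      have h2 : (v : ℝ) ≤ x / (D : ℝ) ^ j := (Nat.le_floor_iff (by positivity)).1 hv2
      push_cast
      rw [mul_comm]
      exact (le_div_iff₀ (by positivity)).1 h2
    have hcast : ((D ^ j * v - 1 : ℕ) : ℝ) = (D : ℝ) ^ j * v - 1 := by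
      rw [Nat.cast_sub (by omega)]; push_cast; ring
    have hn0 : (0 : ℝ) < (D : ℝ) ^ j * v - 1 := by
      rw [← hcast]; exact_mod_cast (by omega : 0 < D ^ j * v - 1)
    have hnx : (D : ℝ) ^ j * v - 1 ≤ x := by push_cast at hle; linarith
    have hcast2 : (((D + 1) ^ j * v - 1 : ℕ) : ℝ) = ((D : ℝ) + 1) ^ j * v - 1 := by
      have : 1 ≤ (D + 1) ^ j * v := Nat.mul_pos (Nat.pow_pos (by omega)) (by omega)
      rw [Nat.cast_sub this]; push_cast; ring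
    have e1 : ((D : ℝ) ^ j * v - 1) ^ β = ((D : ℝ) ^ j * v - 1) ^ (β - 1) * ((D : ℝ) ^ j * v - 1) := by
      rw [← Real.rpow_add_one hn0.ne', sub_add_cancel]
    have e2 : ((D : ℝ) ^ j * v - 1) ^ (β - 1) ≤ ρ ^ j :=
      (Real.rpow_le_rpow hn0.le hnx (by linarith)).trans hR
    have e3 : ρ ^ j * (D : ℝ) ^ j = ((D : ℝ) + 1) ^ j := by
      rw [← mul_pow, hρ, div_mul_cancel₀ _ hD0.ne']
    have e4 : 1 ≤ ρ ^ j := one_le_pow₀ hρ1.le
    have hlast : ((D : ℝ) ^ j * v - 1) ^ β ≤ (((D + 1) ^ j * v - 1 : ℕ) : ℝ) := by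
      rw [hcast2]
      calc ((D : ℝ) ^ j * v - 1) ^ β = ((D : ℝ) ^ j * v - 1) ^ (β - 1) * ((D : ℝ) ^ j * v - 1) := e1
        _ ≤ ρ ^ j * ((D : ℝ) ^ j * v - 1) := by gcongr
        _ = ρ ^ j * (D : ℝ) ^ j * v - ρ ^ j := by ring
        _ = ((D : ℝ) + 1) ^ j * v - ρ ^ j := by rw [e3]
        _ ≤ _ := by linarith
    have hg : ((D ^ j * v - 1 : ℕ) : ℝ) ≤ x ∧ Reach D β (D ^ j * v - 1) := by
      refine ⟨by rw [hcast]; exact hnx, by omega, 2 * j, ?_,
        fun i hi => stay hD (by omega) i hi⟩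
      rw [climb hD j v (by omega), hcast]
      exact hlast
    exact hg
  have h1 := Set.ncard_le_ncard hsub hfin
  rw [Set.ncard_coe_finset, Finset.card_image_of_injOn hinj, Nat.card_Icc] at h1
  have h2 : (V : ℝ) - 1 ≤ (({n : ℕ | (n : ℝ) ≤ x ∧ Reach D β n}.ncard : ℕ) : ℝ) := by
    have : V ≤ {n : ℕ | (n : ℝ) ≤ x ∧ Reach D β n}.ncard + 1 := by omega
    have h3 : (V : ℝ) ≤ (({n : ℕ | (n : ℝ) ≤ x ∧ Reach D β n}.ncard : ℕ) : ℝ) + 1 := by
      exact_mod_cast this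
    linarith
  have h3 : x ^ (1 - (β - 1) * Real.log D / Real.log ρ) / D ≤ x / (D : ℝ) ^ j := by
    rw [Real.rpow_sub hx0, Real.rpow_one, div_div]
    have hpos : 0 < x ^ ((β - 1) * Real.log D / Real.log ρ) := by positivity
    apply div_le_div_of_nonneg_left hx0.le (by positivity)
    rw [mul_comm]
    exact hDj
  linarith

end Pool.Agent.X16.WG
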